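import Mathlib
import Pool.Agent.V11128.ZeroOneDS

namespace Pool.Agent.Results.MP_f2a48e_co.SqrtSm

open Filter Asymptotics

/-- finite 0-1 matrices (`true` is a 1-entry) -/
abbrev Mat (r c : ℕ) := Matrix (Fin r) (Fin c) Bool

/-- the number of 1-entries -/
def ones {r c : ℕ} (A : Mat r c) : ℕ :=
  (Finset.univ.filter (fun p : Fin r × Fin c => A p.1 p.2 = true)).card

/-- `A` contains `P` -/
def Contains {r c r' c' : ℕ} (A : Mat r c) (P : Mat r' c') : Prop :=
  ∃ (f : Fin r' → Fin r) (g : Fin c' → Fin c), StrictMono f ∧ StrictMono g ∧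
    ∀ i j, P i j = true → A (f i) (g j) = true

open Classical in
/-- `ex(n,P)` -/
noncomputable def ex (n : ℕ) {r' c' : ℕ} (P : Mat r' c') : ℕ :=
  (Finset.univ.filter (fun A : Mat n n => ¬ Contains A P)).sup ones

open Classical in
/-- `LSM(A,P)` -/
noncomputable def LSM {r c r' c' : ℕ} (A : Mat r c) (P : Mat r' c') : ℕ :=
  (Finset.univ.filter (fun B : Mat r c =>
    (∀ i j, B i j = true → A i j = true) ∧ ¬ Contains B P)).sup ones

/-- `sm(m,P)` -/
noncomputable def sm (m : ℕ) {r' c' : ℕ} (P : Mat r' c') : ℕ :=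
  sInf {w | ∃ (r c : ℕ) (A : Mat r c), ones A = m ∧ LSM A P = w}

/-- the pattern with rows `1 0 1 0` and `0 1 0 1` -/
def P₀ : Mat 2 4 := !![true, false, true, false; false, true, false, true]

/-- containment of `P₀`, unfolded -/
theorem contains_iff {r c : ℕ} (A : Mat r c) : Contains A P₀ ↔
    ∃ a b : Fin r, a < b ∧ ∃ c₁ c₂ c₃ c₄ : Fin c, c₁ < c₂ ∧ c₂ < c₃ ∧ c₃ < c₄ ∧
      A a c₁ = true ∧ A b c₂ = true ∧ A a c₃ = true ∧ A b c₄ = true := by
  constructor
  · rintro ⟨f, g, hf, hg, h⟩
    refine ⟨f 0, f 1, hf (by decide), g 0, g 1, g 2, g 3, hg (by decide), hg (by decide),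
      hg (by decide), ?_, ?_, ?_, ?_⟩
    · exact h 0 0 (by simp [P₀])
    · exact h 1 1 (by simp [P₀])
    · exact h 0 2 (by simp [P₀])
    · exact h 1 3 (by simp [P₀])
  · rintro ⟨a, b, hab, c₁, c₂, c₃, c₄, h12, h23, h34, h1, h2, h3, h4⟩
    refine ⟨![a, b], ![c₁, c₂, c₃, c₄], ?_, ?_, ?_⟩
    · intro i j hij
      fin_cases i <;> fin_cases j <;> simp_all
    · intro i j hij
      have h13 := h12.trans h23
      have h24 := h23.trans h34
      have h14 := h13.trans h34
      fin_cases i <;> fin_cases j <;> simp_all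
    · intro i j hij
      fin_cases i <;> fin_cases j <;> simp_all [P₀]

/-! ### Lower bound for `LSM` -/

theorem le_LSM {r c r' c' : ℕ} (A : Mat r c) (P : Mat r' c') (B : Mat r c)
    (h : ∀ i j, B i j = true → A i j = true) (hB : ¬ Contains B P) : ones B ≤ LSM A P := by
  classical
  unfold LSM
  exact Finset.le_sup (f := ones) (Finset.mem_filter.2 ⟨Finset.mem_univ _, h, hB⟩)

theorem LSM_le {r c r' c' : ℕ} (A : Mat r c) (P : Mat r' c') (w : ℕ)
    (h : ∀ B : Mat r c, (∀ i j, B i j = true → A i j = true) → ¬ Contains B P → ones B ≤ w) :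
    LSM A P ≤ w := by
  classical
  unfold LSM
  refine Finset.sup_le ?_
  intro B hB
  rw [Finset.mem_filter] at hB
  exact h B hB.2.1 hB.2.2

/-- one row is free of the pattern -/
theorem row_le {r c : ℕ} (A : Mat r c) (i : Fin r) :
    (Finset.univ.filter (fun j => A i j = true)).card ≤ LSM A P₀ := by
  have h := le_LSM A P₀ (fun a j => decide (a = i) && A i j) ?_ ?_
  · refine le_trans ?_ h
    unfold ones
    refine Finset.card_le_card_of_injOn (fun j => (i, j)) ?_ ?_
    · intro j hj
      rw [Finset.mem_coe, Finset.mem_filter] at hj ⊢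
      exact ⟨Finset.mem_univ _, by simp [hj.2]⟩
    · intro a _ b _ h
      exact (Prod.mk.inj h).2
  · intro a j h
    simp only [Bool.and_eq_true, decide_eq_true_eq] at h
    rw [h.1]; exact h.2
  · rw [contains_iff]
    rintro ⟨a, b, hab, c₁, c₂, c₃, c₄, _, _, _, h1, h2, _, _⟩
    simp only [Bool.and_eq_true, decide_eq_true_eq] at h1 h2
    rw [h1.1, h2.1] at hab
    exact absurd hab (lt_irrefl _)

/-- one entry from each nonempty row is free of the pattern -/
theorem rows_le {r c : ℕ} (A : Mat r c) :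
    (Finset.univ.filter (fun i => ∃ j, A i j = true)).card ≤ LSM A P₀ := by
  classical
  have hc : ∀ i : {i : Fin r // ∃ j, A i j = true}, ∃ j, A i j = true := fun i => i.2
  choose ch hch using hc
  have h := le_LSM A P₀ (fun a j => decide (∃ h : ∃ j, A a j = true, j = ch ⟨a, h⟩)) ?_ ?_
  · refine le_trans ?_ h
    unfold ones
    rw [← Fintype.card_subtype]
    rw [← Finset.card_univ]
    refine Finset.card_le_card_of_injOn (fun i => (i.1, ch i)) ?_ ?_
    · intro i _
      rw [Finset.mem_coe, Finset.mem_filter]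
      exact ⟨Finset.mem_univ _, decide_eq_true ⟨i.2, rfl⟩⟩
    · intro a _ b _ h
      exact Subtype.ext (Prod.mk.inj h).1
  · intro a j h
    simp only [decide_eq_true_eq] at h
    obtain ⟨h1, rfl⟩ := h
    exact hch ⟨a, h1⟩
  · rw [contains_iff]
    rintro ⟨a, b, hab, c₁, c₂, c₃, c₄, h12, h23, h34, h1, h2, h3, h4⟩
    simp only [decide_eq_true_eq] at h1 h3
    obtain ⟨x1, y1⟩ := h1
    obtain ⟨x3, y3⟩ := h3
    rw [← y3] at y1
    have := h12.trans h23
    rw [y1] at this
    exact absurd this (lt_irrefl _)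

theorem le_LSM_sq {r c : ℕ} (A : Mat r c) : ones A ≤ LSM A P₀ * LSM A P₀ := by
  classical
  have h1 : ones A = ∑ i ∈ Finset.univ.filter (fun i => ∃ j, A i j = true),
      (Finset.univ.filter (fun j => A i j = true)).card := by
    unfold ones
    rw [← Finset.card_sigma]
    refine Finset.card_bij (fun p _ => ⟨p.1, p.2⟩) ?_ ?_ ?_
    · intro p hp
      simp only [Finset.mem_filter, Finset.mem_univ, true_and] at hp
      simp only [Finset.mem_sigma, Finset.mem_filter, Finset.mem_univ, true_and]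
      exact ⟨⟨_, hp⟩, hp⟩
    · intro a _ b _ h
      have := Sigma.mk.inj h
      exact Prod.ext this.1 (eq_of_heq this.2)
    · intro b hb
      simp only [Finset.mem_sigma, Finset.mem_filter, Finset.mem_univ, true_and] at hb
      exact ⟨(b.1, b.2), by simpa using hb.2, rfl⟩
  rw [h1]
  calc ∑ i ∈ Finset.univ.filter (fun i => ∃ j, A i j = true),
      (Finset.univ.filter (fun j => A i j = true)).card
      ≤ ∑ i ∈ Finset.univ.filter (fun i => ∃ j, A i j = true), LSM A P₀ :=
        Finset.sum_le_sum (fun i _ => row_le A i)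
    _ = (Finset.univ.filter (fun i => ∃ j, A i j = true)).card * LSM A P₀ := by
        rw [Finset.sum_const, smul_eq_mul]
    _ ≤ LSM A P₀ * LSM A P₀ := Nat.mul_le_mul_right _ (rows_le A)

/-! ### Upper bound: the matrix of `n` decreasing runs -/

/-- the `n × n²` matrix which is the concatenation of `n` copies of the antidiagonal -/
def runs (n : ℕ) : Mat n (n * n) := fun i j => decide (i.val + j.val % n + 1 = n)

theorem ones_runs (n : ℕ) : ones (runs n) = n * n := by
  have hlt : ∀ j : Fin (n * n), n - 1 - j.val % n < n := by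
    intro j
    have h1 := j.isLt
    have h2 : 0 < n := by
      rcases Nat.eq_zero_or_pos n with h | h
      · subst h; simp at h1
      · exact h
    omega
  have hc : (Finset.univ : Finset (Fin (n * n))).card = n * n := by simp
  unfold ones runs
  refine Eq.trans (Finset.card_bij (fun (j : Fin (n * n)) _ =>
    ((⟨n - 1 - j.val % n, hlt j⟩ : Fin n), j)) ?_ ?_ ?_).symm hc
  · intro j _
    rw [Finset.mem_filter]
    refine ⟨Finset.mem_univ _, decide_eq_true ?_⟩
    have h1 := j.isLt
    have h2 : 0 < n := by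
      rcases Nat.eq_zero_or_pos n with h | h
      · subst h; simp at h1
      · exact h
    have h3 := Nat.mod_lt j.val h2
    simp only
    omega
  · intro a _ b _ h
    exact (Prod.mk.inj h).2
  · rintro ⟨i, j⟩ hb
    rw [Finset.mem_filter] at hb
    have h1 := of_decide_eq_true hb.2
    simp only at h1
    refine ⟨j, Finset.mem_univ _, ?_⟩
    refine Prod.ext (Fin.ext ?_) rfl
    simp only
    omega

/-- a pattern-avoiding matrix below `runs n` has at most `3 n` ones -/
theorem ones_le (n : ℕ) (B : Mat n (n * n)) (hB : ∀ i j, B i j = true → runs n i j = true)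
    (hP : ¬ Contains B P₀) : ones B ≤ 3 * n := by
  classical
  rcases Nat.eq_zero_or_pos n with hn | hn
  · subst hn
    unfold ones
    simp
  have hpos : ∀ i j, B i j = true → i.val + j.val % n + 1 = n := fun i j h =>
    of_decide_eq_true (hB i j h)
  set E := Finset.univ.filter (fun p : Fin n × Fin (n * n) => B p.1 p.2 = true) with hE
  set F := E.filter (fun p => ∀ j, B p.1 j = true → p.2 ≤ j) with hF
  set L := E.filter (fun p => ∀ j, B p.1 j = true → j ≤ p.2) with hL
  set D := E.filter (fun p => (∃ j, B p.1 j = true ∧ j < p.2) ∧ ∃ j, B p.1 j = true ∧ p.2 < j)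
    with hD
  have hcn : (Finset.univ : Finset (Fin n)).card = n := by simp
  have hFc : F.card ≤ n := by
    refine le_trans ?_ hcn.le
    refine Finset.card_le_card_of_injOn (fun p => p.1) (fun _ _ => Finset.mem_coe.2
      (Finset.mem_univ _)) ?_
    intro p hp q hq h
    rw [Finset.mem_coe, hF, Finset.mem_filter, hE, Finset.mem_filter] at hp hq
    simp only at h
    refine Prod.ext h (le_antisymm (hp.2 _ ?_) (hq.2 _ ?_))
    · rw [h]; exact hq.1.2
    · rw [← h]; exact hp.1.2
  have hLc : L.card ≤ n := by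
    refine le_trans ?_ hcn.le
    refine Finset.card_le_card_of_injOn (fun p => p.1) (fun _ _ => Finset.mem_coe.2
      (Finset.mem_univ _)) ?_
    intro p hp q hq h
    rw [Finset.mem_coe, hL, Finset.mem_filter, hE, Finset.mem_filter] at hp hq
    simp only at h
    refine Prod.ext h (le_antisymm (hq.2 _ ?_) (hp.2 _ ?_))
    · rw [← h]; exact hp.1.2
    · rw [h]; exact hq.1.2
  have hDc : D.card ≤ n := by
    have h0 : D.card ≤ (Finset.range n).card := by
      refine Finset.card_le_card_of_injOn (fun p => p.2.val / n) ?_ ?_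
      · intro p _
        rw [Finset.mem_coe, Finset.mem_range]
        exact Nat.div_lt_of_lt_mul p.2.isLt
      · have key : ∀ p ∈ D, ∀ q ∈ D, p.2.val / n = q.2.val / n → ¬ p.1 < q.1 := by
          intro p hp q hq h hlt
          rw [hD, Finset.mem_filter, hE, Finset.mem_filter] at hp hq
          obtain ⟨⟨_, hp0⟩, ⟨j₁, hj₁, hj₁'⟩, _⟩ := hp
          obtain ⟨⟨_, hq0⟩, _, ⟨j₂, hj₂, hj₂'⟩⟩ := hq
          apply hP
          rw [contains_iff]
          have e1 := hpos _ _ hp0
          have e2 := hpos _ _ hq0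
          have e3 := hpos _ _ hj₁
          have e4 := hpos _ _ hj₂
          have d1 := Nat.div_add_mod p.2.val n
          have d2 := Nat.div_add_mod q.2.val n
          have d3 := Nat.div_add_mod j₁.val n
          have d4 := Nat.div_add_mod j₂.val n
          have l1 : p.1.val < q.1.val := hlt
          have l2 : j₁.val < p.2.val := hj₁'
          have l3 : q.2.val < j₂.val := hj₂'
          have m1 : j₁.val / n < p.2.val / n := by
            by_contra hcon
            push Not at hcon
            have := Nat.mul_le_mul_left n hcon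
            omega
          have m2 : q.2.val / n < j₂.val / n := by
            by_contra hcon
            push Not at hcon
            have := Nat.mul_le_mul_left n hcon
            omega
          have m3 : n * (j₁.val / n) + n ≤ n * (p.2.val / n) := by
            have := Nat.mul_le_mul_left n m1
            rw [Nat.succ_eq_add_one, mul_add, mul_one] at this
            exact this
          have m4 : n * (q.2.val / n) + n ≤ n * (j₂.val / n) := by
            have := Nat.mul_le_mul_left n m2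
            rw [Nat.succ_eq_add_one, mul_add, mul_one] at this
            exact this
          rw [h] at m3 d1
          refine ⟨p.1, q.1, hlt, j₁, q.2, p.2, j₂, ?_, ?_, ?_, hj₁, hq0, hp0, hj₂⟩
          · exact Fin.lt_def.2 (by omega)
          · exact Fin.lt_def.2 (by omega)
          · exact Fin.lt_def.2 (by omega)
        intro p hp q hq h
        simp only at h
        have h1 : p.1 = q.1 := by
          rcases lt_trichotomy p.1 q.1 with h2 | h2 | h2
          · exact absurd h2 (key p hp q hq h)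
          · exact h2
          · exact absurd h2 (key q hq p hp h.symm)
        rw [Finset.mem_coe, hD, Finset.mem_filter, hE, Finset.mem_filter] at hp hq
        have e1 := hpos _ _ hp.1.2
        have e2 := hpos _ _ hq.1.2
        have d1 := Nat.div_add_mod p.2.val n
        have d2 := Nat.div_add_mod q.2.val n
        rw [h] at d1
        refine Prod.ext h1 (Fin.ext ?_)
        rw [h1] at e1
        omega
    rwa [Finset.card_range] at h0
  have hsub : E ⊆ F ∪ L ∪ D := by
    intro p hp
    by_cases h1 : ∀ j, B p.1 j = true → p.2 ≤ j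
    · exact Finset.mem_union_left _ (Finset.mem_union_left _ (Finset.mem_filter.2 ⟨hp, h1⟩))
    by_cases h2 : ∀ j, B p.1 j = true → j ≤ p.2
    · exact Finset.mem_union_left _ (Finset.mem_union_right _ (Finset.mem_filter.2 ⟨hp, h2⟩))
    push Not at h1 h2
    exact Finset.mem_union_right _ (Finset.mem_filter.2 ⟨hp, h1, h2⟩)
  have h3 := Finset.card_le_card hsub
  have h4 := Finset.card_union_le (F ∪ L) D
  have h5 := Finset.card_union_le F L
  change E.card ≤ 3 * n
  omega

/-- restriction of a matrix to fewer ones -/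
theorem exists_sub {r c : ℕ} (A : Mat r c) (m : ℕ) (hm : m ≤ ones A) :
    ∃ A' : Mat r c, (∀ i j, A' i j = true → A i j = true) ∧ ones A' = m := by
  classical
  obtain ⟨s, hs, hc⟩ := Finset.exists_subset_card_eq hm
  refine ⟨fun i j => decide ((i, j) ∈ s), ?_, ?_⟩
  · intro i j h
    have := hs (of_decide_eq_true h)
    rw [Finset.mem_filter] at this
    exact this.2
  · rw [← hc]
    unfold ones
    congr 1
    ext p
    simp

theorem sm_le (m n : ℕ) (h : m ≤ n * n) : sm m P₀ ≤ 3 * n := by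
  obtain ⟨A, hA, hA2⟩ := exists_sub (runs n) m (by rw [ones_runs]; exact h)
  have h1 : LSM A P₀ ≤ 3 * n := LSM_le A P₀ _ (fun B hB hP =>
    ones_le n B (fun i j hij => hA i j (hB i j hij)) hP)
  refine le_trans (Nat.sInf_le ?_) h1
  exact ⟨n, n * n, A, hA2, rfl⟩

theorem le_sm_sq (m : ℕ) : m ≤ sm m P₀ * sm m P₀ := by
  have hne : {w | ∃ (r c : ℕ) (A : Mat r c), ones A = m ∧ LSM A P₀ = w}.Nonempty := by
    obtain ⟨A, hA, hA2⟩ := exists_sub (runs m) m (by rw [ones_runs]; nlinarith)
    exact ⟨_, m, m * m, A, hA2, rfl⟩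
  have h := Nat.sInf_mem hne
  obtain ⟨r, c, A, h1, h2⟩ := h
  have h3 := le_LSM_sq A
  rw [h1, h2] at h3
  exact h3

/-! ### Superlinearity of `ex(n,P₀)` -/

open Pool.Agent.V11128.ZO

theorem le_ex {n r' c' : ℕ} (P : Mat r' c') (A : Mat n n) (hA : ¬ Contains A P) :
    ones A ≤ ex n P := by
  classical
  unfold ex
  exact Finset.le_sup (f := ones) (Finset.mem_filter.2 ⟨Finset.mem_univ _, hA⟩)

/-- position of an element in a finset of a linear order -/
def pos {X : Type} [LinearOrder X] (U : Finset X) (c : X) : ℕ := (U.filter (· < c)).card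

theorem pos_lt {X : Type} [LinearOrder X] (U : Finset X) (c : X) (hc : c ∈ U) :
    pos U c < U.card := by
  unfold pos
  refine Finset.card_lt_card ?_
  refine (Finset.ssubset_iff_of_subset (Finset.filter_subset _ _)).2 ⟨c, hc, ?_⟩
  simp

theorem pos_mono {X : Type} [LinearOrder X] (U : Finset X) (c d : X) (hc : c ∈ U) (h : c < d) :
    pos U c < pos U d := by
  unfold pos
  refine Finset.card_lt_card ?_
  refine (Finset.ssubset_iff_of_subset ?_).2 ⟨c, ?_, ?_⟩
  · intro x hx
    rw [Finset.mem_filter] at hx ⊢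
    exact ⟨hx.1, hx.2.trans h⟩
  · exact Finset.mem_filter.2 ⟨hc, h⟩
  · simp

theorem lt_of_pos {X : Type} [LinearOrder X] (U : Finset X) (c d : X) (hd : d ∈ U)
    (h : pos U c < pos U d) : c < d := by
  rcases lt_trichotomy c d with h1 | h1 | h1
  · exact h1
  · subst h1; exact absurd h (lt_irrefl _)
  · exact absurd (pos_mono U d c hd h1) (not_lt.2 h.le)

theorem eq_of_pos {X : Type} [LinearOrder X] (U : Finset X) (c d : X) (hc : c ∈ U) (hd : d ∈ U)
    (h : pos U c = pos U d) : c = d := by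
  rcases lt_trichotomy c d with h1 | h1 | h1
  · exact absurd h (ne_of_lt (pos_mono U c d hc h1))
  · exact h1
  · exact absurd h.symm (ne_of_lt (pos_mono U d c hd h1))

/-- a design gives a square pattern-free matrix -/
theorem des_ex {k m s t n : ℕ} (X : Des k m s t) (h1 : m * s ≤ n) (h2 : s + t ≤ n) :
    k * (m * s) ≤ ex n P₀ := by
  classical
  set U : Finset X.C := X.S ∪ X.T with hU
  have hUc : U.card ≤ n := by
    refine (Finset.card_union_le _ _).trans (le_trans ?_ h2)
    rw [X.hS]
    exact Nat.add_le_add_left X.hT _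
  have hMU : ∀ r, ∀ c ∈ X.M r, c ∈ U := by
    intro r c hc
    by_cases h : c = X.sp r
    · rw [h]; exact Finset.mem_union_left _ (X.hsp r)
    · exact Finset.mem_union_right _ (X.hreg r c hc h).2
  have hRc : (Finset.univ : Finset X.R).card ≤ n := by
    rw [Finset.card_univ, X.hR]; exact h1
  let A : Mat n n := fun i j => decide (∃ r : X.R, ∃ c ∈ X.M r,
    pos Finset.univ r = i.val ∧ pos U c = j.val)
  have hA : ¬ Contains A P₀ := by
    rw [contains_iff]
    rintro ⟨a, b, hab, c₁, c₂, c₃, c₄, h12, h23, h34, g1, g2, g3, g4⟩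
    obtain ⟨r₁, d₁, m₁, p₁, q₁⟩ := of_decide_eq_true g1
    obtain ⟨r₂, d₂, m₂, p₂, q₂⟩ := of_decide_eq_true g2
    obtain ⟨r₃, d₃, m₃, p₃, q₃⟩ := of_decide_eq_true g3
    obtain ⟨r₄, d₄, m₄, p₄, q₄⟩ := of_decide_eq_true g4
    have e13 : r₃ = r₁ := eq_of_pos Finset.univ _ _ (Finset.mem_univ _) (Finset.mem_univ _)
      (p₃.trans p₁.symm)
    have e24 : r₄ = r₂ := eq_of_pos Finset.univ _ _ (Finset.mem_univ _) (Finset.mem_univ _)
      (p₄.trans p₂.symm)
    subst e13; subst e24
    have l12 : r₃ < r₄ := lt_of_pos Finset.univ _ _ (Finset.mem_univ _) (by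
      rw [p₁, p₂]; exact hab)
    refine X.hav _ _ l12 d₁ m₁ d₂ m₂ d₃ m₃ d₄ m₄ ?_ ?_ ?_
    · exact lt_of_pos U _ _ (hMU _ _ m₂) (by rw [q₁, q₂]; exact h12)
    · exact lt_of_pos U _ _ (hMU _ _ m₃) (by rw [q₂, q₃]; exact h23)
    · exact lt_of_pos U _ _ (hMU _ _ m₄) (by rw [q₃, q₄]; exact h34)
  refine le_trans ?_ (le_ex P₀ A hA)
  have hcard : ((Finset.univ : Finset X.R).sigma (fun r => X.M r)).card = k * (m * s) := by
    rw [Finset.card_sigma, Finset.sum_congr rfl (fun r _ => X.hM r), Finset.sum_const,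
      Finset.card_univ, X.hR, smul_eq_mul, mul_comm]
  rw [← hcard]
  unfold ones
  have hr : ∀ r : X.R, pos Finset.univ r < n := fun r =>
    (pos_lt _ _ (Finset.mem_univ _)).trans_le hRc
  let φ : (Σ _ : X.R, X.C) → Fin n × Fin n := fun p =>
    (⟨pos Finset.univ p.1, hr p.1⟩, if h : pos U p.2 < n then ⟨pos U p.2, h⟩ else
      ⟨pos Finset.univ p.1, hr p.1⟩)
  have hφ : ∀ p ∈ (Finset.univ : Finset X.R).sigma (fun r => X.M r),
      (φ p).1.val = pos Finset.univ p.1 ∧ (φ p).2.val = pos U p.2 ∧ p.2 ∈ U := by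
    intro p hp
    rw [Finset.mem_sigma] at hp
    have h3 : pos U p.2 < n := (pos_lt U _ (hMU _ _ hp.2)).trans_le hUc
    refine ⟨rfl, ?_, hMU _ _ hp.2⟩
    simp only [φ, dif_pos h3]
  refine Finset.card_le_card_of_injOn φ ?_ ?_
  · intro p hp
    have h3 := hφ p (Finset.mem_coe.1 hp)
    rw [Finset.mem_coe, Finset.mem_sigma] at hp
    rw [Finset.mem_coe, Finset.mem_filter]
    exact ⟨Finset.mem_univ _, decide_eq_true ⟨p.1, p.2, hp.2, h3.1.symm, h3.2.1.symm⟩⟩
  · rintro ⟨r, c⟩ hp ⟨r', c'⟩ hq h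
    have h3 := hφ _ (Finset.mem_coe.1 hp)
    have h4 := hφ _ (Finset.mem_coe.1 hq)
    rw [h] at h3
    have e1 : r = r' := eq_of_pos Finset.univ _ _ (Finset.mem_univ _) (Finset.mem_univ _)
      (h3.1.symm.trans h4.1)
    have e2 : c = c' := eq_of_pos U _ _ h3.2.2 h4.2.2 (h3.2.1.symm.trans h4.2.1)
    subst e1; subst e2
    rfl

theorem ex_ge (K : ℕ) : ∃ n₀ : ℕ, ∀ n, n₀ ≤ n → K * n ≤ ex n P₀ := by
  obtain ⟨s, t, hs, ht, ⟨X⟩⟩ := exists_des (4 * K) 1 1 1 one_pos
  refine ⟨2 * s, fun n hn => ?_⟩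
  have hq := Nat.div_add_mod n (2 * s)
  have hq2 := Nat.mod_lt n (show 0 < 2 * s by omega)
  set q := n / (2 * s) with hqd
  have hq3 : 1 ≤ q := (Nat.one_le_div_iff (by omega)).2 hn
  have hqe : 2 * s * q = 2 * (q * s) := by ring
  rw [hqe] at hq
  have h1 : 1 * (q * s) ≤ n := by omega
  have h2 : q * s + q * t ≤ n := by
    have : q * t ≤ q * s := Nat.mul_le_mul_left _ (by omega)
    omega
  have h3 := des_ex (desCopies q X) h1 h2
  refine le_trans ?_ h3
  have h4 : n ≤ 4 * (q * s) := by
    have : 1 * s ≤ q * s := Nat.mul_le_mul_right _ hq3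
    omega
  have h5 : K * n ≤ K * (4 * (q * s)) := Nat.mul_le_mul_left _ h4
  nlinarith

/-! ### Main result -/

theorem sm_bounds (m : ℕ) : Real.sqrt m ≤ sm m P₀ ∧ (sm m P₀ : ℝ) ≤ 3 * ⌈Real.sqrt m⌉₊ := by
  constructor
  · rw [Real.sqrt_le_left (Nat.cast_nonneg _)]
    have h := le_sm_sq m
    have h2 : (m : ℝ) ≤ (sm m P₀ : ℝ) * sm m P₀ := by exact_mod_cast h
    rw [sq]
    exact h2
  · have h : m ≤ ⌈Real.sqrt m⌉₊ * ⌈Real.sqrt m⌉₊ := by
      have h1 := Nat.le_ceil (Real.sqrt m)
      have h2 : (m : ℝ) ≤ (⌈Real.sqrt m⌉₊ : ℝ) * ⌈Real.sqrt m⌉₊ := by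
        calc (m : ℝ) = Real.sqrt m * Real.sqrt m := (Real.mul_self_sqrt (Nat.cast_nonneg _)).symm
          _ ≤ _ := mul_self_le_mul_self (Real.sqrt_nonneg _) h1
      exact_mod_cast h2
    exact_mod_cast sm_le m _ h

/-- There is a 0-1 matrix `P` with `ex(n,P) = ω(n)` and `sm(m,P) = Θ(√m)`. -/
theorem result : ∃ P : Mat 2 4, P = !![true, false, true, false; false, true, false, true] ∧
    Tendsto (fun n : ℕ => (ex n P : ℝ) / n) atTop atTop ∧
    (fun m : ℕ => (sm m P : ℝ)) =Θ[atTop] (fun m : ℕ => Real.sqrt m) ∧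
    ∀ m : ℕ, Real.sqrt m ≤ sm m P ∧ (sm m P : ℝ) ≤ 3 * ⌈Real.sqrt m⌉₊ := by
  refine ⟨P₀, rfl, ?_, ?_, sm_bounds⟩
  · rw [tendsto_atTop]
    intro b
    obtain ⟨K, hK⟩ := exists_nat_ge b
    obtain ⟨n₀, hn₀⟩ := ex_ge K
    filter_upwards [eventually_ge_atTop (max n₀ 1)] with n hn
    have h1 := hn₀ n (le_trans (le_max_left _ _) hn)
    have h2 : 1 ≤ n := le_trans (le_max_right _ _) hn
    have h3 : (0 : ℝ) < n := by exact_mod_cast h2
    refine hK.trans ?_
    rw [le_div_iff₀ h3]
    exact_mod_cast h1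
  · constructor
    · refine IsBigO.of_bound 6 ?_
      filter_upwards [eventually_ge_atTop 1] with m hm
      have h := (sm_bounds m).2
      have h1 : (1 : ℝ) ≤ Real.sqrt m := by
        rw [Real.one_le_sqrt]
        exact_mod_cast hm
      have h2 : (⌈Real.sqrt m⌉₊ : ℝ) < Real.sqrt m + 1 := Nat.ceil_lt_add_one (Real.sqrt_nonneg _)
      rw [Real.norm_of_nonneg (Nat.cast_nonneg _), Real.norm_of_nonneg (Real.sqrt_nonneg _)]
      linarith
    · refine IsBigO.of_bound 1 ?_
      filter_upwards with m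
      rw [Real.norm_of_nonneg (Nat.cast_nonneg _), Real.norm_of_nonneg (Real.sqrt_nonneg _),
        one_mul]
      exact (sm_bounds m).1

end Pool.Agent.Results.MP_f2a48e_co.SqrtSm
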